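import Pool.Agent.H24.RC.LowN
import Pool.Agent.H20.RT.Ray
import Pool.Agent.H89.RS.Klm
import Pool.Agent.H89.RS.Q
import Pool.Agent.H32.RT.Ww

/-!
# [H41 RA Rad] THEOREM C (MP_e49dc9_ag): RAD

`p` nef, `v` a class with `T(p,v,D) = 0` on the prime divisors `D` with `T(p,p,D) = 0`, and `T(v,A,D) = 0` if moreover `T(p,A,D) = 0`.
* `hs_le`: `T(v,v,D) ≤ 0`; if it is `0` then the degrees of `v` and `p` on the curves of `D` are proportional.
* `srf_fac`: the prime factors of a `W` with sections; `T(v,v,W) ≤ 0`, equality for the factors.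
* `crv_alt`: `T(v,v,W) = 0`: on every curve either `W` has degree `≥ 0`, or `v` is one of finitely many multiples of `p`.
* `rad`: `p = [P]`, `T(p,p,p) = 0`, `T(p,p,.) ≠ 0`, `l(P) > 0`, `T(p,e,.) = 0`: then `p + s e` is nef for `|s|` small.
* `nd_zero`: `T(p,v,.) = 0`, `T(v,v,A) = 0 ⟹ v = 0`.
* `rad_zero`: `N` contains the nef `u` with `T(p,p,u) = 0`, and `T(w,e,.) = 0` for `w ∈ N`: then `e = 0`.
-/

set_option autoImplicit false

namespace Pool.Agent.H41.RA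

open Pool.Agent.H54.RV Pool.Agent.H83.TU Pool.Agent.H83.TK Pool.Agent.H20.TD Pool.Agent.H20.TP Pool.Agent.H20.RT
open Pool.Agent.H24.VP (RR chS chi)

variable {k K : Type} [Field k] [Field K] [Algebra k K] {X : Mod k K} {r : ℕ}
  {ν : Cart X →* Multiplicative (Fin r → ℤ)} {T : Cart X → Cart X → Cart X → ℝ} {l : Cart X → ℝ} {c : ℝ} {TR : Tri3 r}
  {z x : X.P} {p v : Fin r → ℝ} {A S W : Cart X}

theorem cR_pow (U : Cart X) (n : ℕ) : cR ν (U ^ n) = (n : ℝ) • cR ν U := by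
  change rv (ci ν (U ^ n)) = _
  rw [ci_pow, rv_smul, Int.cast_natCast]

theorem cR_inv (U : Cart X) : cR ν U⁻¹ = - cR ν U := by
  change rv (ci ν U⁻¹) = _
  rw [ci_inv, rv_neg]

/-- **the index theorem on a prime divisor with `T(p,p,S) = 0`** -/
theorem hs_le [CharZero k] [IsAlgClosed k] [T0Space X.P] (h : Hyp X) (hr : RR T l c) (hν : NumR ν)
    (hT : ∀ U V W, TR (cR ν U) (cR ν V) (cR ν W) = T U V W)
    (htr : Algebra.trdeg k (X.kap z) = 2) (hS : SPr X z S) (hA : Ample A)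
    (hpp : TR p p (cR ν S) = 0) (hpv : TR p v (cR ν S) = 0)
    (h2 : TR p (cR ν A) (cR ν S) = 0 → TR v (cR ν A) (cR ν S) = 0) :
    TR v v (cR ν S) ≤ 0 ∧ (TR v v (cR ν S) = 0 → ∃ q : ℝ, ∀ y, Cv z y → dR hν h.var y v = q * dR hν h.var y p) := by
  obtain ⟨q, hq⟩ : ∃ q : ℝ, TR v (cR ν A) (cR ν S) = q * TR p (cR ν A) (cR ν S) := by
    by_cases h0 : TR p (cR ν A) (cR ν S) = 0
    · exact ⟨0, by rw [h2 h0, zero_mul]⟩
    · exact ⟨TR v (cR ν A) (cR ν S) / TR p (cR ν A) (cR ν S), by rw [div_mul_cancel₀ _ h0]⟩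
  obtain ⟨u, hu⟩ : ∃ u, u = v - q • p := ⟨_, rfl⟩
  have e1 : TR u (cR ν A) (cR ν S) = 0 := by
    rw [hu]
    simp only [map_sub, map_smul, LinearMap.sub_apply, LinearMap.smul_apply, smul_eq_mul]
    rw [hq, sub_self]
  have e2 : TR u u (cR ν S) = TR v v (cR ν S) := by
    rw [hu]
    simp only [map_sub, map_smul, LinearMap.sub_apply, LinearMap.smul_apply, smul_eq_mul]
    rw [hpp, hpv, tr_s12 hr hν hT v p, hpv]
    ring
  have key : 0 ≤ TR v v (cR ν S) → ∀ y, Cv z y → dR hν h.var y u = 0 := fun h3 y hy =>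
    Pool.Agent.H89.RT.hc_nn h hr hν hT htr hS hA e1 (by rw [e2]; exact h3) hy
  refine ⟨?_, fun h3 => ⟨q, fun y hy => ?_⟩⟩
  · by_contra hcon
    push Not at hcon
    have h3 := dec_zero h hr hν hT htr hS (key hcon.le) u
    rw [e2] at h3
    exact hcon.ne' h3
  · have h4 := key h3.ge y hy
    rw [hu, map_sub, map_smul, smul_eq_mul, sub_eq_zero] at h4
    exact h4

theorem dR_eff [CharZero k] (h : Hyp X) (hν : NumR ν) {V : Cart X} (hV : Effective V) (h1 : Un (X.O x) (V.eq x))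
    (hx : Algebra.trdeg k (X.kap x) = 1) : 0 ≤ dR hν h.var x (cR ν V) := by
  obtain ⟨s, hs0, hs1, -⟩ := hasX_res h.var (Pool.Agent.H89.RS.hasX_eff hV) (z := x) (fun h2 => h2 h1)
  rw [dR_ci hν h.var h.amp hx]
  exact_mod_cast dz_nn h.var h.amp hx hs1 hs0

/-- the degree of a trivial divisor -/
theorem dR_triv [CharZero k] (h : Hyp X) (hν : NumR ν) {U : Cart X} (hU : Effective U) (hU' : Effective U⁻¹)
    (hx : Algebra.trdeg k (X.kap x) = 1) : dR hν h.var x (cR ν U) = 0 := by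
  have key : ∀ V : Cart X, Effective V → Effective V⁻¹ → 0 ≤ dR hν h.var x (cR ν V) := fun V hV hV' =>
    dR_eff h hν hV ⟨V.ne x, hV x, by rw [← inv_eq]; exact hV' x⟩ hx
  have h1 := key U hU hU'
  have h2 := key U⁻¹ hU' (by rw [inv_inv]; exact hU)
  rw [cR_inv, map_neg] at h2
  linarith

theorem list_dR (h : Hyp X) (hν : NumR ν) (L : List (PDiv X × Cart X)) :
    dR hν h.var x (cR ν (L.map Prod.snd).prod) = (L.map fun y => dR hν h.var x (cR ν y.2)).sum := by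
  induction L with
  | nil => rw [List.map_nil, List.prod_nil, List.map_nil, List.sum_nil, cR_one, map_zero]
  | cons S L ih => rw [List.map_cons, List.prod_cons, List.map_cons, List.sum_cons, cR_mul, map_add, ih]

/-- the prime factors of a divisor with sections -/
theorem srf_fac [CharZero k] [IsAlgClosed k] [T0Space X.P] (h : Hyp X) (hr : RR T l c) (hν : NumR ν)
    (hT : ∀ U V W, TR (cR ν U) (cR ν V) (cR ν W) = T U V W) (hW : 0 < h0 W 1) :
    ∃ Ls : List (PDiv X × Cart X), (∀ y ∈ Ls, SPr X y.1.η y.2) ∧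
      (∀ u w, TR u w (cR ν W) = (Ls.map fun y => TR u w (cR ν y.2)).sum) ∧
      ∀ x : X.P, Algebra.trdeg k (X.kap x) = 1 →
        dR hν h.var x (cR ν W) = (Ls.map fun y => dR hν h.var x (cR ν y.2)).sum := by
  obtain ⟨s, hs0, hE⟩ := Pool.Agent.H20.TK.eff_of_pos W hW
  obtain ⟨Ls, U, h1, h2, h3, h4⟩ := Pool.Agent.H24.VP.fac_eff h hr hE
  have e1 : cR ν W = cR ν (Ls.map Prod.snd).prod + cR ν U := by
    rw [← Pool.Agent.H32.RT.cr_prin hν W s hs0, h4, cR_mul]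
  refine ⟨Ls, h1, fun u w => ?_, fun x hx => ?_⟩
  · rw [e1, map_add, list_tr, tr_triv h hr hν hT h2 h3, add_zero]
  · rw [e1, map_add, list_dR h hν, dR_triv h hν h2 h3 hx, add_zero]

theorem sum_zero {α : Type} {L : List α} {f : α → ℝ} (h : ∀ y ∈ L, f y ≤ 0) (h0 : (L.map f).sum = 0) :
    ∀ y ∈ L, f y = 0 := by
  induction L with
  | nil => intro y hy; exact absurd hy List.not_mem_nil
  | cons a L ih =>
    rw [List.map_cons, List.sum_cons] at h0
    have h1 := h a List.mem_cons_self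
    have h2 : (L.map f).sum ≤ 0 := by
      have h3 : 0 ≤ (L.map fun y => - f y).sum := by
        refine List.sum_nonneg fun x hx => ?_
        obtain ⟨y, hy, rfl⟩ := List.mem_map.1 hx
        exact neg_nonneg.2 (h y (List.mem_cons_of_mem a hy))
      have h4 : ∀ M : List α, (M.map fun y => - f y).sum = - (M.map f).sum := by
        intro M
        induction M with
        | nil => simp
        | cons b M ih => rw [List.map_cons, List.sum_cons, ih, List.map_cons, List.sum_cons]; ring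
      rw [h4] at h3
      linarith
    intro y hy
    rcases List.mem_cons.1 hy with rfl | h5
    · linarith
    · exact ih (fun y hy => h y (List.mem_cons_of_mem a hy)) (by linarith) y h5

theorem sum_np {α : Type} {L : List α} {f : α → ℝ} (h : ∀ y ∈ L, f y ≤ 0) : (L.map f).sum ≤ 0 := by
  induction L with
  | nil => simp
  | cons a L ih =>
    rw [List.map_cons, List.sum_cons]
    have h1 := h a List.mem_cons_self
    have h2 := ih fun y hy => h y (List.mem_cons_of_mem a hy)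
    linarith

/-- `T(p,v,D) = 0` for the prime divisors `D` with `T(p,p,D) = 0`, and `T(v,A,D) = 0` if `T(p,A,D) = 0` -/
structure Ort (TR : Tri3 r) (ν : Cart X →* Multiplicative (Fin r → ℤ)) (A : Cart X) (p v : Fin r → ℝ) : Prop where
  pv : ∀ (Q : PDiv X) (D : Cart X), SPr X Q.η D → TR p p (cR ν D) = 0 → TR p v (cR ν D) = 0
  av : ∀ (Q : PDiv X) (D : Cart X), SPr X Q.η D → TR p p (cR ν D) = 0 → TR p (cR ν A) (cR ν D) = 0 →
    TR v (cR ν A) (cR ν D) = 0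

/-- the prime factors of `W` with `T(p,p,W) = 0` -/
theorem fac_ver [CharZero k] [IsAlgClosed k] [T0Space X.P] (h : Hyp X) (hr : RR T l c) (hν : NumR ν)
    (hT : ∀ U V W, TR (cR ν U) (cR ν V) (cR ν W) = T U V W) (hp : p ∈ closure (CC ν))
    {Ls : List (PDiv X × Cart X)} (h1 : ∀ y ∈ Ls, SPr X y.1.η y.2)
    (h2 : (Ls.map fun y => TR p p (cR ν y.2)).sum = 0) : ∀ y ∈ Ls, TR p p (cR ν y.2) = 0 := by
  intro y hy
  have h3 : ∀ y ∈ Ls.map (fun x => TR p p (cR ν x.2)), 0 ≤ y := by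
    intro y hy
    obtain ⟨z, hz, rfl⟩ := List.mem_map.1 hy
    exact tr_srf h hr hν hT hp z.1 (h1 z hz)
  have h4 := List.single_le_sum h3 (TR p p (cR ν y.2)) (List.mem_map.2 ⟨y, hy, rfl⟩)
  rw [h2] at h4
  exact le_antisymm h4 (tr_srf h hr hν hT hp y.1 (h1 y hy))

/-- `T(v,v,W) ≤ 0` -/
theorem vv_np [CharZero k] [IsAlgClosed k] [T0Space X.P] (h : Hyp X) (hr : RR T l c) (hν : NumR ν)
    (hT : ∀ U V W, TR (cR ν U) (cR ν V) (cR ν W) = T U V W) (hA : Ample A) (hp : p ∈ closure (CC ν))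
    (ho : Ort TR ν A p v) (hW : 0 < h0 W 1) (hpW : TR p p (cR ν W) = 0) : TR v v (cR ν W) ≤ 0 := by
  obtain ⟨Ls, h1, h2, -⟩ := srf_fac h hr hν hT hW
  have h3 := fac_ver h hr hν hT hp h1 (by rw [← h2, hpW])
  rw [h2]
  exact sum_np fun y hy => (hs_le h hr hν hT (trdeg_pdiv h y.1) (h1 y hy) hA (h3 y hy)
    (ho.pv _ _ (h1 y hy) (h3 y hy)) (ho.av _ _ (h1 y hy) (h3 y hy))).1

/-- the alternative on the curves -/
theorem crv_alt [CharZero k] [IsAlgClosed k] [T0Space X.P] (h : Hyp X) (hr : RR T l c) (hν : NumR ν)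
    (hT : ∀ U V W, TR (cR ν U) (cR ν V) (cR ν W) = T U V W) (hA : Ample A) (hp : p ∈ closure (CC ν))
    (ho : Ort TR ν A p v) (hW : 0 < h0 W 1) (hpW : TR p p (cR ν W) = 0) (hvW : TR v v (cR ν W) = 0) :
    ∃ C : ℝ, 0 ≤ C ∧ ∀ x : X.P, Algebra.trdeg k (X.kap x) = 1 → 0 ≤ dR hν h.var x (cR ν W) ∨
      ∃ q : ℝ, |q| ≤ C ∧ dR hν h.var x v = q * dR hν h.var x p := by
  classical
  obtain ⟨Ls, h1, h2, h4⟩ := srf_fac h hr hν hT hW
  have h3 := fac_ver h hr hν hT hp h1 (by rw [← h2, hpW])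
  have h5 := sum_zero (L := Ls) (f := fun y => TR v v (cR ν y.2)) (fun y hy =>
    (hs_le h hr hν hT (trdeg_pdiv h y.1) (h1 y hy) hA (h3 y hy)
      (ho.pv _ _ (h1 y hy) (h3 y hy)) (ho.av _ _ (h1 y hy) (h3 y hy))).1) (by rw [← h2, hvW])
  have h6 : ∀ y : PDiv X × Cart X, ∃ q : ℝ, y ∈ Ls → ∀ x, Cv y.1.η x → dR hν h.var x v = q * dR hν h.var x p := by
    intro y
    by_cases hy : y ∈ Ls
    · obtain ⟨q, hq⟩ := (hs_le h hr hν hT (trdeg_pdiv h y.1) (h1 y hy) hA (h3 y hy)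
        (ho.pv _ _ (h1 y hy) (h3 y hy)) (ho.av _ _ (h1 y hy) (h3 y hy))).2 (h5 y hy)
      exact ⟨q, fun _ => hq⟩
    · exact ⟨0, fun h7 => absurd h7 hy⟩
  choose q hq using h6
  refine ⟨(Ls.map fun y => |q y|).sum, List.sum_nonneg fun x hx => ?_, fun x hx => ?_⟩
  · obtain ⟨y, -, rfl⟩ := List.mem_map.1 hx
    exact abs_nonneg _
  · by_cases hxL : ∃ y ∈ Ls, y.1.η ⤳ x
    · obtain ⟨y, hy, hyx⟩ := hxL
      refine Or.inr ⟨q y, ?_, hq y hy x ⟨hyx, hx⟩⟩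
      refine List.single_le_sum (fun t ht => ?_) (|q y|) (List.mem_map.2 ⟨y, hy, rfl⟩)
      obtain ⟨y', -, rfl⟩ := List.mem_map.1 ht
      exact abs_nonneg _
    · push Not at hxL
      refine Or.inl ?_
      rw [h4 x hx]
      refine List.sum_nonneg fun t ht => ?_
      obtain ⟨y, hy, rfl⟩ := List.mem_map.1 ht
      exact dR_eff h hν (h1 y hy).eff ((h1 y hy).un x (hxL y hy)) hx

/-- sections of `P ^ n * u`, `T(p,u,.) = 0` -/
theorem sec_u [CharZero k] [IsAlgClosed k] [T0Space X.P] (h : Hyp X) (hr : RR T l c) (hν : NumR ν)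
    (hT : ∀ U V W, TR (cR ν U) (cR ν V) (cR ν W) = T U V W) (hA : Ample A) {P u : Cart X}
    (hp : cR ν P ∈ closure (CC ν)) (hppp : TR (cR ν P) (cR ν P) (cR ν P) = 0)
    (hpp : 0 < TR (cR ν P) (cR ν P) (cR ν A)) (hl : 0 < l P) (hpu : ∀ w, TR (cR ν P) (cR ν u) w = 0) :
    ∃ n₀ : ℕ, ∀ n : ℕ, n₀ ≤ n → 0 < h0 (P ^ n * u) 1 := by
  obtain ⟨C, x₀, hC⟩ := Pool.Agent.H24.RC.low_nu h hr hν hT hA hp hpp ‖cR ν u‖
  obtain ⟨n₁, hn₁⟩ := exists_nat_ge x₀
  obtain ⟨n₂, hn₂⟩ := exists_nat_gt ((C - (TR (cR ν u) (cR ν u) (cR ν u) / 6 + l u + c)) / l P)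
  rw [div_lt_iff₀ hl] at hn₂
  refine ⟨max n₁ n₂, fun n hn => ?_⟩
  have h1 : (n₁ : ℝ) ≤ n := by exact_mod_cast (le_max_left _ _).trans hn
  have h2 : (n₂ : ℝ) ≤ n := by exact_mod_cast (le_max_right _ _).trans hn
  have e1 : cR ν (P ^ n * u) = (n : ℝ) • cR ν P + cR ν u := by rw [cR_mul, cR_pow]
  have h3 := hC (P ^ n * u) n (hn₁.trans h1) (by rw [e1, add_sub_cancel_left])
  have h4 : chi T l c (P ^ n * u) = TR (cR ν u) (cR ν u) (cR ν u) / 6 + (n * l P + l u) + c := by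
    unfold chi
    rw [← hT, e1, hr.ladd, hr.l_pow]
    have a1 : TR (cR ν u) (cR ν P) (cR ν u) = 0 := by rw [tr_s12 hr hν hT, hpu]
    have a2 : TR (cR ν u) (cR ν u) (cR ν P) = 0 := by rw [tr_s23 hr hν hT, a1]
    have a3 : TR (cR ν u) (cR ν P) (cR ν P) = 0 := by rw [tr_s12 hr hν hT, hpu]
    have a4 : TR (cR ν P) (cR ν P) (cR ν u) = 0 := by rw [tr_s23 hr hν hT, hpu]
    simp only [map_add, map_smul, LinearMap.add_apply, LinearMap.smul_apply, smul_eq_mul, hpu, hppp, a1, a2, a3, a4]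
    ring
  rw [h4] at h3
  have h5 : (n₂ : ℝ) * l P ≤ n * l P := mul_le_mul_of_nonneg_right h2 hl.le
  have h6 : (0 : ℝ) < h0 (P ^ n * u) 1 := by linarith
  exact_mod_cast h6

/-- **(RAD)** -/
theorem rad [CharZero k] [IsAlgClosed k] [T0Space X.P] (h : Hyp X) (hr : RR T l c) (hν : NumR ν)
    (hT : ∀ U V W, TR (cR ν U) (cR ν V) (cR ν W) = T U V W) (hA : Ample A) {P e : Cart X}
    (hp : cR ν P ∈ closure (CC ν)) (hppp : TR (cR ν P) (cR ν P) (cR ν P) = 0)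
    (hpp : TR (cR ν P) (cR ν P) ≠ 0) (hl : 0 < l P) (hpe : ∀ w, TR (cR ν P) (cR ν e) w = 0)
    (he2 : ∀ (Q : PDiv X) (D : Cart X), SPr X Q.η D → TR (cR ν P) (cR ν P) (cR ν D) = 0 →
      TR (cR ν P) (cR ν A) (cR ν D) = 0 → TR (cR ν e) (cR ν A) (cR ν D) = 0) :
    ∃ s₀ : ℝ, 0 < s₀ ∧ ∀ s : ℝ, |s| ≤ s₀ → cR ν P + s • cR ν e ∈ closure (CC ν) := by
  obtain ⟨p, hpd⟩ : ∃ p, p = cR ν P := ⟨_, rfl⟩
  obtain ⟨v, hvd⟩ : ∃ v, v = cR ν e := ⟨_, rfl⟩
  have hs12 := tr_s12 hr hν hT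
  have hs23 := tr_s23 hr hν hT
  have hppA := pp_pos h hr hν hT hA hp hpp
  obtain ⟨n₁, hn₁⟩ := sec_u h hr hν hT hA hp hppp hppA hl hpe
  obtain ⟨n₂, hn₂⟩ := sec_u h hr hν hT hA (u := e⁻¹) hp hppp hppA hl (fun w => by
    rw [cR_inv, map_neg, LinearMap.neg_apply, hpe, neg_zero])
  obtain ⟨n, hn⟩ : ∃ n, n = max 1 (max n₁ n₂) := ⟨_, rfl⟩
  have hn1 : 1 ≤ n := by rw [hn]; exact le_max_left _ _
  have k1 := hn₁ n (by rw [hn]; exact (le_max_left _ _).trans (le_max_right _ _))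
  have k2 := hn₂ n (by rw [hn]; exact (le_max_right _ _).trans (le_max_right _ _))
  have e1 : cR ν (P ^ n * e) = (n : ℝ) • p + v := by rw [cR_mul, cR_pow, hpd, hvd]
  have e2 : cR ν (P ^ n * e⁻¹) = (n : ℝ) • p - v := by rw [cR_mul, cR_pow, cR_inv, hpd, hvd, sub_eq_add_neg]
  rw [← hpd] at hp hppp hpp hpe he2
  rw [← hvd] at hpe he2
  rw [← hpd, ← hvd]
  have ho : Ort TR ν A p v := ⟨fun _ _ _ _ => hpe _, he2⟩
  have a1 : TR p p v = 0 := by rw [hs23, hpe]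
  have a2 : TR v v p = 0 := by rw [hs23, hs12, hpe]
  have b1 : TR p p (cR ν (P ^ n * e)) = 0 := by
    rw [e1, map_add, map_smul, hppp, a1, smul_zero, zero_add]
  have b2 : TR p p (cR ν (P ^ n * e⁻¹)) = 0 := by
    rw [e2, map_sub, map_smul, hppp, a1, smul_zero, sub_zero]
  have c1 : TR v v (cR ν (P ^ n * e)) = TR v v v := by
    rw [e1, map_add, map_smul, a2, smul_zero, zero_add]
  have c2 : TR v v (cR ν (P ^ n * e⁻¹)) = - TR v v v := by
    rw [e2, map_sub, map_smul, a2, smul_zero, zero_sub]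
  have d1 := vv_np h hr hν hT hA hp ho k1 b1
  have d2 := vv_np h hr hν hT hA hp ho k2 b2
  rw [c1] at d1
  rw [c2] at d2
  have d3 : TR v v v = 0 := by linarith
  obtain ⟨C₁, hC₁, f1⟩ := crv_alt h hr hν hT hA hp ho k1 b1 (by rw [c1, d3])
  obtain ⟨C₂, hC₂, f2⟩ := crv_alt h hr hν hT hA hp ho k2 b2 (by rw [c2, d3, neg_zero])
  have hn0 : (1 : ℝ) ≤ n := by exact_mod_cast hn1
  have hden : 0 < C₁ + C₂ + n := by linarith
  refine ⟨1 / (C₁ + C₂ + n), by positivity, fun s hs => Pool.Agent.H89.RS.klm h hr hν hT fun x hx => ?_⟩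
  rw [le_div_iff₀ hden] at hs
  have hs0 := abs_nonneg s
  have hdp := dR_nef hν h.var hA hx hp
  have g1 : |s| * C₁ ≤ 1 := by nlinarith
  have g2 : |s| * C₂ ≤ 1 := by nlinarith
  have g3 : |s| * n ≤ 1 := by nlinarith
  have key : ∀ q : ℝ, |s| * |q| ≤ 1 → dR hν h.var x v = q * dR hν h.var x p → 0 ≤ dR hν h.var x (p + s • v) := by
    intro q h1 h2
    rw [map_add, map_smul, smul_eq_mul, h2]
    have h3 : 0 ≤ 1 + s * q := by
      rw [← abs_mul] at h1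
      linarith [(abs_le.1 h1).1]
    nlinarith
  rcases le_or_gt 0 s with h0 | h0
  · rw [abs_of_nonneg h0] at g3
    rcases f1 x hx with h1 | ⟨q, hq, h1⟩
    · rw [e1, map_add, map_smul, smul_eq_mul] at h1
      rw [map_add, map_smul, smul_eq_mul]
      nlinarith [mul_nonneg h0 h1, mul_nonneg (sub_nonneg.2 g3) hdp]
    · exact key q ((mul_le_mul_of_nonneg_left hq hs0).trans g1) h1
  · rw [abs_of_neg h0] at g3
    rcases f2 x hx with h1 | ⟨q, hq, h1⟩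
    · rw [e2, map_sub, map_smul, smul_eq_mul] at h1
      rw [map_add, map_smul, smul_eq_mul]
      nlinarith [mul_nonneg (neg_nonneg.2 h0.le) h1, mul_nonneg (sub_nonneg.2 g3) hdp]
    · exact key q ((mul_le_mul_of_nonneg_left hq hs0).trans g2) h1

/-- `T(p,v,.) = 0`, `T(v,v,A) = 0 ⟹ v = 0` -/
theorem nd_zero [CharZero k] [IsAlgClosed k] [T0Space X.P] (h : Hyp X) (hr : RR T l c) (hν : NumR ν)
    (hT : ∀ U V W, TR (cR ν U) (cR ν V) (cR ν W) = T U V W) (hA : Ample A) (hp : p ∈ closure (CC ν))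
    (hpp : TR p p ≠ 0) (hpv : ∀ w, TR p v w = 0) (hvv : TR v v (cR ν A) = 0) : v = 0 := by
  have hs12 := tr_s12 hr hν hT
  have hs23 := tr_s23 hr hν hT
  have h1 := pp_pos h hr hν hT hA hp hpp
  have h2 : ∀ w, TR (cR ν A) v w = 0 :=
    hd_eq h hr hν hT (L := p) (subset_closure (cc_amp h.var hν hA)) (by rw [hs12, hs23]; exact h1)
      (by rw [hs12, hs23, hs12, hpv]) (by rw [hs12, hs23]; exact hvv)
  exact Pool.Agent.H83.RT.num_zero h hr hν hT fun x hx =>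
    curves_zero h hr hν hT hA (fun u => by rw [hs12]; exact h2 u) hvv hx

/-- **(RAD)**, with a space of classes -/
theorem rad_zero [CharZero k] [IsAlgClosed k] [T0Space X.P] (h : Hyp X) (hr : RR T l c) (hν : NumR ν)
    (hT : ∀ U V W, TR (cR ν U) (cR ν V) (cR ν W) = T U V W) (hA : Ample A) {P e : Cart X}
    (hp : cR ν P ∈ closure (CC ν)) (hppp : TR (cR ν P) (cR ν P) (cR ν P) = 0)
    (hpp : TR (cR ν P) (cR ν P) ≠ 0) (hl : 0 < l P) {N : Submodule ℝ (Fin r → ℝ)}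
    (hN : ∀ u ∈ closure (CC ν), TR (cR ν P) (cR ν P) u = 0 → u ∈ N) (he : ∀ w ∈ N, ∀ u, TR w (cR ν e) u = 0)
    (he2 : ∀ (Q : PDiv X) (D : Cart X), SPr X Q.η D → TR (cR ν P) (cR ν P) (cR ν D) = 0 →
      TR (cR ν P) (cR ν A) (cR ν D) = 0 → TR (cR ν e) (cR ν A) (cR ν D) = 0) : cR ν e = 0 := by
  have hpe := he _ (hN _ hp hppp)
  obtain ⟨s, hs, h1⟩ := rad h hr hν hT hA hp hppp hpp hl hpe he2
  have h2 := h1 s (by rw [abs_of_pos hs])
  have h3 : cR ν P + s • cR ν e ∈ N := hN _ h2 (by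
    rw [map_add, map_smul, hppp, tr_s23 hr hν hT, hpe, smul_zero, add_zero])
  have h4 : cR ν e ∈ N := by
    have h5 := N.smul_mem s⁻¹ (N.sub_mem h3 (hN _ hp hppp))
    rwa [add_sub_cancel_left, smul_smul, inv_mul_cancel₀ hs.ne', one_smul] at h5
  exact nd_zero h hr hν hT hA hp hpp hpe (he _ h4 _)

end Pool.Agent.H41.RA
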